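import Mathlib
import Pool.Agent.N759.FV.ManyVals

/-! # MP_edeaa2_an: more than `log N` distinct small values, or a large common divisor

Let `d ≥ 3`, let `q` be the least prime factor of `d`, let `δ, ν > 0`, and let
`T > (d! / d ^ d) δ`, or more generally let `T` be such that every product of `d` real linear forms
with absolute determinant `δ` takes a value of absolute value `< T` at some nonzero integer point.
There are `κ > 0` and `x₀` such that for every real `d × d` matrix `g` with absolute determinant `δ`,
whose product `F` of the linear forms given by the rows is at least `ν` in absolute value at the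
nonzero integer points, and for every `x ≥ x₀`, one of the following holds.

* All values of `F` at the integer points are integral multiples of one number `η ≥ exp (-x)`.
* For every positive `a` of product one, the number `s` of the distinct values `|F(p)| < T` at the
  nonzero integer points `p` of the parallelepiped `|a_i l_i(p)| ≤ exp x` satisfies
  `s ^ (d ^ 2 - d) ≥ κ x ^ (d ^ 2 - 1 - d / q)`.

So a form which violates the conjecture of Cassels and Swinnerton-Dyer takes in each of these
parallelepipeds (for example in a box of side `N`, `x = log N + O(1)`) at least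
`κ' x ^ (1 + (d - 1 - d / q) / (d ^ 2 - d))` distinct values below `T`; the exponent is larger than
one, and it is `1 + (d - 2) / (d ^ 2 - d)` if `d` is prime, `7 / 6` for `d = 3`. The constants are the
same for all these forms. For a form which is proportional to an integral form, with `η` maximal, the
number of its values below `T` is at least `κ' (log (1 / η)) ^ (1 + (d - 1 - d / q) / (d ^ 2 - d))`.

The proof. Choose small points `p_k` at the points `k` of a grid of side `x / C` in the diagonal
group, which has rank `d - 1`. If `F = λ` at the points `p_k`, `k ∈ V`, then either the vectors of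
the monomials of degree `d` at these points span everything, and the coefficients of `F` are
multiples of `λ / Δ` with a determinant `Δ` of size `exp (C x)`, or some form of degree `d` vanishes
at all these points. In the second case two monomials in the `l_i` dominate at each point, and `V` is
contained in the union of boundedly many hyperplanes of the grid; so there are at least `x / C`
values. More precisely, if `s` is the number of values, we find (with a second grid inside the cells
of the first one, and the same argument applied to the derivative of `g ↦ F` ) for most `k` a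
direction of hyperplanes and `d ^ 2 - d` small points at `k` which determine `g` up to automorphs,
such that the hyperplane through `k` of this direction is determined by each of their values. One of
the hyperplanes belongs to `O(s / x)` values only, contains about `x ^ (d - 2)` of these positions
`k`, and at most `O(x ^ (d / q - 1))` positions differ by automorphs. -/

set_option autoImplicit false

namespace Pool.Agent.Results.MP_edeaa2_an.ManySmallValues

/-- the product of the linear forms given by the rows of `g`, at an integer point -/
noncomputable def F {d : ℕ} (g : Matrix (Fin d) (Fin d) ℝ) (p : Fin d → ℤ) : ℝ :=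
  ∏ i : Fin d, ∑ j : Fin d, g i j * (p j : ℝ)

/-- the matrices with absolute determinant `δ` and form at least `ν` in absolute value at the nonzero
integer points -/
def System (d : ℕ) (δ ν : ℝ) : Set (Matrix (Fin d) (Fin d) ℝ) :=
  {g | |g.det| = δ ∧ ∀ p : Fin d → ℤ, p ≠ 0 → ν ≤ |F g p|}

/-- `T` is larger than Minkowski's bound, or every product of `d` linear forms with absolute
determinant `δ` takes a value of absolute value `< T` at a nonzero integer point -/
def Admissible (d : ℕ) (δ T : ℝ) : Prop :=
  (d.factorial : ℝ) * δ < (d : ℝ) ^ d * T ∨
    ∀ g : Matrix (Fin d) (Fin d) ℝ, |g.det| = δ → ∃ p : Fin d → ℤ, p ≠ 0 ∧ |F g p| < T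

/-- `t < T` is the absolute value of the form at a nonzero integer point `p` with
`|a_i l_i(p)| ≤ exp x` for all `i` -/
def SmallValue {d : ℕ} (g : Matrix (Fin d) (Fin d) ℝ) (a : Fin d → ℝ) (x T t : ℝ) : Prop :=
  t < T ∧ ∃ p : Fin d → ℤ, p ≠ 0 ∧ (∀ i, |a i * ∑ j, g i j * (p j : ℝ)| ≤ Real.exp x) ∧
    |F g p| = t

theorem result (d : ℕ) (hd : 3 ≤ d) (δ ν T : ℝ) (hδ : 0 < δ) (hν : 0 < ν)
    (hT : Admissible d δ T) :
    ∃ κ : ℝ, 0 < κ ∧ ∃ x₀ : ℝ, ∀ g ∈ System d δ ν, ∀ x : ℝ, x₀ ≤ x →
      (∃ η : ℝ, Real.exp (-x) ≤ η ∧ ∀ p : Fin d → ℤ, ∃ z : ℤ, F g p = η * z) ∨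
      ∀ a : Fin d → ℝ, (∀ i, 0 < a i) → ∏ i, a i = 1 →
        ∃ E : Finset ℝ, (∀ t ∈ E, SmallValue g a x T t) ∧
          κ * x ^ (d ^ 2 - 1 - d / d.minFac) ≤ (E.card : ℝ) ^ (d ^ 2 - d) := by
  obtain ⟨r, rfl⟩ : ∃ r, d = r + 1 := ⟨d - 1, by omega⟩
  obtain ⟨κ, hκ, x₀, H⟩ := Pool.Agent.N759.FV.many_values (by omega : 0 < r) hδ hν hT
  refine ⟨κ, hκ, x₀, fun g hg x hx => ?_⟩
  rcases H g hg.1 hg.2 x hx with h | h
  · exact Or.inl h
  · refine Or.inr fun a ha0 ha1 => ?_
    obtain ⟨E, hE, hEx⟩ := h a ha0 ha1
    refine ⟨E, fun t ht => ?_, ?_⟩
    · obtain ⟨p, hp, hpx, hpt, htT⟩ := hE t ht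
      exact ⟨htT, p, hp, hpx, hpt⟩
    · have h1 : (r + 1) ^ 2 - 1 - (r + 1) / (r + 1).minFac =
          Fintype.card (Pool.Agent.N759.FV.Od (r + 1)) + r - (r + 1) / (r + 1).minFac := by
        rw [Pool.Agent.N759.FV.card_Od]
        have h2 : (r + 1) ^ 2 = r * r + 2 * r + 1 := by ring
        rw [h2]
        omega
      rw [h1, ← Pool.Agent.N759.FV.card_Od]
      exact hEx

end Pool.Agent.Results.MP_edeaa2_an.ManySmallValues
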