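import Mathlib
import Pool.Agent.N759.UC.Finite
import Pool.Agent.H715R2.CountableValues

/-! # MP_edeaa2_an: codes of low complexity occur only for finitely many classes of forms

Let `d ≥ 3` and let `a, b` be positive diagonal `d × d` matrices of determinant one, such that for
all `(m, n) ≠ (0, 0)` some value occurs among the diagonal entries of `a^m b^n` with a multiplicity
prime to `d`. (If `d` is prime, it is enough that `a` and `b` are multiplicatively independent. For
`d = 3` they generate a lattice in the group of all positive diagonal matrices of determinant one.)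

Let `g` be a real `d × d` matrix with determinant `±δ` and `F` the product of the linear forms given
by its rows, `|F| ≥ ν > 0` at the nonzero integer points. There is a constant `C = C(d, δ, ν)` such
that for all integers `m, n` there is `V(m, n) ∈ GL_d(ℤ)` for which the entries of `a^m b^n g V(m, n)`
are at most `C` in absolute value. The code of such a family gives at `(m, n)` the pair of matrices
`V(m, n)⁻¹ V(m+1, n)`, `V(m, n)⁻¹ V(m, n+1)`; it is a two-dimensional array of finitely many symbols.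

We show: for all `C, k, l` there are `M` and a finite set `S` of such matrices, whose forms are all
proportional to integral forms, with the following property. Let `g` be any matrix as above which is
not equivalent to an element of `S` (under diagonal matrices of determinant `±1` and `GL_d(ℤ)`; so
the forms are equal up to the sign and a substitution in `GL_d(ℤ)`), and `V` any family for `g` with
the constant `C`. Every window of side `M` contains `⌈k/13⌉ ⌈l/13⌉` neighbouring positions at which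
the `k × l` blocks of the code are pairwise different. In particular every such window contains at
least `k l / 169` different `k × l` blocks.

This holds for all counterexamples to the conjecture of Cassels and Swinnerton-Dyer, with the same
`M`, and unconditionally for all forms which are proportional to integral forms outside finitely
many classes. -/

set_option autoImplicit false

open Filter Topology

namespace Pool.Agent.Results.MP_edeaa2_an.QuadraticComplexity

/-- the product of the linear forms given by the rows of `g`, at an integer point -/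
noncomputable def F {d : ℕ} (g : Matrix (Fin d) (Fin d) ℝ) (x : Fin d → ℤ) : ℝ :=
  ∏ i : Fin d, ∑ j : Fin d, g i j * (x j : ℝ)

/-- the form is proportional to an integral form -/
def Integral {d : ℕ} (g : Matrix (Fin d) (Fin d) ℝ) : Prop :=
  ∃ c : ℝ, c ≠ 0 ∧ ∀ m : Fin d →₀ ℕ, ∃ z : ℤ, MvPolynomial.coeff m
    (c • (∏ i : Fin d, ∑ j : Fin d,
      MvPolynomial.C (g i j) * MvPolynomial.X j : MvPolynomial (Fin d) ℝ)) = (z : ℝ)

/-- the matrices with absolute determinant `δ` and form at least `ν` in absolute value at the nonzero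
integer points -/
def System (d : ℕ) (δ ν : ℝ) : Set (Matrix (Fin d) (Fin d) ℝ) :=
  {g | |g.det| = δ ∧ ∀ x : Fin d → ℤ, x ≠ 0 → ν ≤ |F g x|}

/-- `g` is obtained from `g'` by a diagonal matrix of determinant `±1` and an element of `GL_d(ℤ)` -/
def Equivalent {d : ℕ} (g g' : Matrix (Fin d) (Fin d) ℝ) : Prop :=
  ∃ (c : Fin d → ℝ) (γ : Matrix (Fin d) (Fin d) ℤ), |∏ i, c i| = 1 ∧ |γ.det| = 1 ∧
    g = Matrix.diagonal c * g' * γ.map (Int.cast : ℤ → ℝ)

/-- `V m n` has determinant `±1`, and the entries of `a ^ m b ^ n g V(m, n)` are at most `C` in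
absolute value. -/
def Good {d : ℕ} (g : Matrix (Fin d) (Fin d) ℝ) (a b : Fin d → ℝ) (C : ℝ)
    (V : ℤ → ℤ → Matrix (Fin d) (Fin d) ℤ) : Prop :=
  ∀ m n : ℤ, |(V m n).det| = 1 ∧ ∀ i k,
    |(Matrix.diagonal (fun i => a i ^ m * b i ^ n) * g * (V m n).map (Int.cast : ℤ → ℝ)) i k| ≤ C

/-- the code -/
noncomputable def code {d : ℕ} (V : ℤ → ℤ → Matrix (Fin d) (Fin d) ℤ) (m n : ℤ) :
    Matrix (Fin d) (Fin d) ℤ × Matrix (Fin d) (Fin d) ℤ :=
  ((V m n)⁻¹ * V (m + 1) n, (V m n)⁻¹ * V m (n + 1))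

/-- the `k × l` block of the code at the position `(m, n)` -/
noncomputable def block {d : ℕ} (V : ℤ → ℤ → Matrix (Fin d) (Fin d) ℤ) (k l : ℕ) (m n : ℤ) :
    Fin k → Fin l → Matrix (Fin d) (Fin d) ℤ × Matrix (Fin d) (Fin d) ℤ :=
  fun i j => code V (m + (i : ℕ)) (n + (j : ℕ))

/-- the `k × l` blocks at the `⌈k/13⌉ ⌈l/13⌉` positions from `(m, n)` on are pairwise different -/
def Different {d : ℕ} (V : ℤ → ℤ → Matrix (Fin d) (Fin d) ℤ) (k l : ℕ) (m n : ℤ) : Prop :=
  ∀ p q p' q' : ℕ, p < (k + 12) / 13 → q < (l + 12) / 13 → p' < (k + 12) / 13 →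
    q' < (l + 12) / 13 →
    block V k l (m + p) (n + q) = block V k l (m + p') (n + q') → p = p' ∧ q = q'

/-- there is a family for `g` and a window of side `M` without good positions -/
def Bad {d : ℕ} (a b : Fin d → ℝ) (C : ℝ) (k l : ℕ) (g : Matrix (Fin d) (Fin d) ℝ) (M : ℕ) : Prop :=
  ∃ V, Good g a b C V ∧ ∃ m₀ n₀ : ℤ, ∀ m n : ℤ, m₀ ≤ m → m ≤ m₀ + M → n₀ ≤ n → n ≤ n₀ + M →
    ¬ Different V k l m n

/-- sequences of bad matrices -/
theorem bad_seq {d : ℕ} (hd : 3 ≤ d) (a b : Fin d → ℝ) (ha : ∀ i, 0 < a i) (hb : ∀ i, 0 < b i)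
    (ha1 : ∏ i, a i = 1) (hb1 : ∏ i, b i = 1)
    (hab : ∀ m n : ℤ, (m ≠ 0 ∨ n ≠ 0) →
      ∃ r : ℝ, Nat.Coprime (Nat.card {i // a i ^ m * b i ^ n = r}) d)
    {δ ν : ℝ} (hδ : 0 < δ) (hν : 0 < ν) (C : ℝ) (k q : ℕ)
    (g : ℕ → Matrix (Fin d) (Fin d) ℝ) (N : ℕ → ℕ) (hN : ∀ i, i ≤ N i)
    (hg : ∀ i, |(g i).det| = δ) (hnu : ∀ i, H715R2.HasNu (g i) ν)
    (hbad : ∀ i, Bad a b C k q (g i) (N i)) :
    ∃ s : ℕ → ℕ, (∀ i, i ≤ s i) ∧ (∀ i, H715R2.PropInt (g (s i))) ∧
      ∀ i j, Pool.Agent.N759.UC.Eqv (g (s i)) (g (s j)) := by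
  classical
  choose V hV m₀ l₀ hwin using hbad
  have hu : ∀ i m l, IsUnit (V i m l) := fun i m l =>
    (Matrix.isUnit_iff_isUnit_det _).2 (Int.isUnit_iff_abs_eq.2 (hV i m l).1)
  choose U hU using hu
  set V' : ℕ → (Fin 2 → ℤ) → (Matrix (Fin d) (Fin d) ℤ)ˣ := fun i z => U i (z 0) (z 1) with hV'
  -- repetitions
  have hrep : ∀ i, ∀ z : Fin 2 → ℤ,
      (∀ t, (![m₀ i, l₀ i] : Fin 2 → ℤ) t ≤ z t ∧
        z t ≤ (![m₀ i, l₀ i] : Fin 2 → ℤ) t + (N i : ℕ)) →
      Pool.Agent.N759.NV.Rep (Pool.Agent.N759.NV.gcode (V' i)) k q z := by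
    intro i z hz
    have hz0 : m₀ i ≤ z 0 ∧ z 0 ≤ m₀ i + (N i : ℕ) := hz 0
    have hz1 : l₀ i ≤ z 1 ∧ z 1 ≤ l₀ i + (N i : ℕ) := hz 1
    have hnd := hwin i (z 0) (z 1) hz0.1 hz0.2 hz1.1 hz1.2
    unfold Different at hnd
    push Not at hnd
    obtain ⟨s, t, s', t', hs, ht, hs', ht', heq, hne⟩ := hnd
    refine ⟨(⟨s, hs⟩, ⟨t, ht⟩), (⟨s', hs'⟩, ⟨t', ht'⟩), ?_, fun x y => ?_⟩
    · intro h0
      have h1 := congrArg (fun x => ((x.1 : ℕ))) h0
      have h2 := congrArg (fun x => ((x.2 : ℕ))) h0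
      exact hne h1 h2
    · have hg : ∀ (r t r' t' : ℤ),
          ((Pool.Agent.N759.NV.gcode (V' i) (![z 0 + r, z 1 + r'] + ![t, t'])).1 :
            Matrix (Fin d) (Fin d) ℤ) = (code (V i) (z 0 + r + t) (z 1 + r' + t')).1 ∧
          ((Pool.Agent.N759.NV.gcode (V' i) (![z 0 + r, z 1 + r'] + ![t, t'])).2 :
            Matrix (Fin d) (Fin d) ℤ) = (code (V i) (z 0 + r + t) (z 1 + r' + t')).2 := by
        intro r t r' t'
        have e0 : (![z 0 + r, z 1 + r'] + ![t, t']) = ![z 0 + r + t, z 1 + r' + t'] := by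
          funext i; fin_cases i <;> simp
        rw [e0]
        unfold Pool.Agent.N759.NV.gcode code
        simp only [Units.val_mul, Matrix.coe_units_inv, hV', hU]
        have e1 : (![z 0 + r + t, z 1 + r' + t'] + ![1, 0]) = ![z 0 + r + t + 1, z 1 + r' + t'] := by
          funext i; fin_cases i <;> simp
        have e2 : (![z 0 + r + t, z 1 + r' + t'] + ![0, 1]) = ![z 0 + r + t, z 1 + r' + t' + 1] := by
          funext i; fin_cases i <;> simp
        rw [e1, e2]
        exact ⟨rfl, rfl⟩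
      have h1 := congrFun (congrFun heq x) y
      have g1 := hg s x t y
      have g2 := hg s' x t' y
      have h1' : code (V i) (z 0 + s + x) (z 1 + t + y) =
        code (V i) (z 0 + s' + x) (z 1 + t' + y) := h1
      refine Prod.ext (Units.ext ?_) (Units.ext ?_)
      · exact g1.1.trans ((congrArg Prod.fst h1').trans g2.1.symm)
      · exact g1.2.trans ((congrArg Prod.snd h1').trans g2.2.symm)
  obtain ⟨S, hS⟩ := Pool.Agent.N759.NV.group_strip_unif (Matrix (Fin d) (Fin d) ℤ)ˣ k q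
  have hSv : ∀ x : ℤ, |(x : ℝ)| ≤ S → |x| ≤ ⌈S⌉ := by
    intro x hx
    have : ((|x| : ℤ) : ℝ) ≤ (⌈S⌉ : ℤ) := by
      rw [Int.cast_abs]
      exact hx.trans (Int.le_ceil _)
    exact_mod_cast this
  exact Pool.Agent.N759.UC.seq_main hd hδ hν
    (fun z i => a i ^ z 0 * b i ^ z 1)
    (fun z i => mul_pos (zpow_pos (ha i) _) (zpow_pos (hb i) _))
    (fun z w i => by
      rw [Pi.add_apply, Pi.add_apply, zpow_add₀ (ha i).ne', zpow_add₀ (hb i).ne']
      ring)
    (fun z => by
      rw [Finset.prod_mul_distrib, Finset.prod_zpow, Finset.prod_zpow, ha1, hb1, one_zpow,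
        one_zpow, one_mul])
    (fun z hz => by
      obtain ⟨r, hr⟩ := hab (z 0) (z 1) (by
        by_contra hc
        push Not at hc
        apply hz
        funext i
        fin_cases i
        · exact hc.1
        · exact hc.2)
      refine ⟨r, ?_⟩
      rwa [Nat.card_eq_fintype_card, Fintype.card_subtype] at hr)
    (C := C) (S' := ⌈S⌉) g hg hnu V'
    (fun i z t x => by
      have h1 := (hV i (z 0) (z 1)).2 t x
      simp only [hV', hU]
      exact h1)
    (fun m => by
      obtain ⟨M, hM⟩ := hS m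
      refine ⟨max m M, le_max_left _ _, ?_⟩
      obtain ⟨z, v, -, hv, hvS, hj⟩ := hM (V' (max m M)) ![m₀ (max m M), l₀ (max m M)]
        (fun z hz => hrep _ z fun t => ⟨(hz t).1, (hz t).2.trans (by
          have h1 := hN (max m M)
          have h2 := le_max_right m M
          have h3 : (M : ℤ) ≤ (N (max m M) : ℕ) := by exact_mod_cast h2.trans h1
          linarith)⟩)
      exact ⟨z, v, hv, fun i => hSv _ (hvS i), fun j hjm => hj j hjm⟩)

theorem result (d : ℕ) (hd : 3 ≤ d) (a b : Fin d → ℝ) (ha : ∀ i, 0 < a i) (hb : ∀ i, 0 < b i)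
    (ha1 : ∏ i, a i = 1) (hb1 : ∏ i, b i = 1)
    (hab : (d.Prime ∧ ∀ m n : ℤ, (∀ i, a i ^ m * b i ^ n = 1) → m = 0 ∧ n = 0) ∨
      ∀ m n : ℤ, (m ≠ 0 ∨ n ≠ 0) →
        ∃ r : ℝ, Nat.Coprime (Nat.card {i // a i ^ m * b i ^ n = r}) d)
    (δ ν : ℝ) (hδ : 0 < δ) (hν : 0 < ν) :
    (∃ C : ℝ, ∀ g ∈ System d δ ν, ∃ V, Good g a b C V) ∧
    ∀ (C : ℝ) (k l : ℕ), ∃ (M : ℕ) (S : Set (Matrix (Fin d) (Fin d) ℝ)), S.Finite ∧
      (∀ g ∈ S, g ∈ System d δ ν ∧ Integral g) ∧
      ∀ g ∈ System d δ ν, (Integral g ∧ ∃ g' ∈ S, Equivalent g g') ∨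
        ∀ V, Good g a b C V → ∀ m₀ n₀ : ℤ,
          (∃ m n : ℤ, m₀ ≤ m ∧ m ≤ m₀ + M ∧ n₀ ≤ n ∧ n ≤ n₀ + M ∧ Different V k l m n) ∧
          ((k * l : ℕ) : ℕ∞) ≤ 169 * {B | ∃ m n : ℤ, m₀ ≤ m ∧ m ≤ m₀ + M ∧ n₀ ≤ n ∧ n ≤ n₀ + M ∧
            B = block V k l m n}.encard := by
  -- for prime `d` the second hypothesis follows from the first
  have hab' : ∀ m l : ℤ, (m ≠ 0 ∨ l ≠ 0) →
      ∃ r : ℝ, Nat.Coprime (Nat.card {i // a i ^ m * b i ^ l = r}) d := by
    rcases hab with ⟨hp, hind⟩ | hab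
    swap
    · exact hab
    classical
    intro m l hml
    have hprod : ∏ i, (a i ^ m * b i ^ l) = 1 := by
      rw [Finset.prod_mul_distrib, Finset.prod_zpow, Finset.prod_zpow, ha1, hb1, one_zpow,
        one_zpow, one_mul]
    have hpos : ∀ i, 0 < a i ^ m * b i ^ l :=
      fun i => mul_pos (zpow_pos (ha i) _) (zpow_pos (hb i) _)
    obtain ⟨i, t, hit⟩ : ∃ i t, a i ^ m * b i ^ l ≠ a t ^ m * b t ^ l := by
      by_contra hcon
      push Not at hcon
      have h1 : ∀ i, a i ^ m * b i ^ l = 1 := by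
        intro i
        have h2 : (a i ^ m * b i ^ l) ^ d = 1 := by
          rw [← hprod, Finset.prod_congr rfl fun t _ => hcon t i, Finset.prod_const,
            Finset.card_univ, Fintype.card_fin]
        exact (pow_eq_one_iff_of_nonneg (hpos i).le (by omega)).1 h2
      obtain ⟨h2, h3⟩ := hind m l h1
      rcases hml with h | h
      · exact h h2
      · exact h h3
    refine ⟨a i ^ m * b i ^ l, ?_⟩
    rw [Nat.card_eq_fintype_card, Fintype.card_subtype]
    have h1 : 0 < (Finset.univ.filter fun t => a t ^ m * b t ^ l = a i ^ m * b i ^ l).card :=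
      Finset.card_pos.2 ⟨i, by simp⟩
    have h2 : (Finset.univ.filter fun t => a t ^ m * b t ^ l = a i ^ m * b i ^ l).card < d := by
      have h3 : (Finset.univ.filter fun t => a t ^ m * b t ^ l = a i ^ m * b i ^ l) ⊂
          Finset.univ := by
        refine ⟨Finset.subset_univ _, fun hsub => ?_⟩
        have h4 := hsub (Finset.mem_univ t)
        rw [Finset.mem_filter] at h4
        exact hit h4.2.symm
      have h5 := Finset.card_lt_card h3
      rwa [Finset.card_univ, Fintype.card_fin] at h5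
    exact (Nat.coprime_of_lt_prime h1.ne' h2 hp).symm
  constructor
  · obtain ⟨R, hR⟩ := H715R2.exists_bound (d := d) (by omega) δ ν hδ hν
    refine ⟨R, fun g hg => ?_⟩
    have hex : ∀ m n : ℤ, ∃ V : Matrix (Fin d) (Fin d) ℤ, |V.det| = 1 ∧ ∀ i k,
        |(Matrix.diagonal (fun i => a i ^ m * b i ^ n) * g * V.map (Int.cast : ℤ → ℝ)) i k| ≤ R := by
      intro m n
      have hprod : ∏ i, (a i ^ m * b i ^ n) = 1 := by
        rw [Finset.prod_mul_distrib, Finset.prod_zpow, Finset.prod_zpow, ha1, hb1, one_zpow,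
          one_zpow, one_mul]
      obtain ⟨γ, hγ, hγR⟩ := hR (Matrix.diagonal (fun i => a i ^ m * b i ^ n) * g)
        (by rw [Matrix.det_mul, Matrix.det_diagonal, hprod, one_mul]; exact hg.1) (fun x hx => by
          rw [H715R2.FF_diag_mul, hprod, one_mul]
          exact hg.2 x hx)
      exact ⟨γ, Int.isUnit_iff_abs_eq.1 hγ, hγR⟩
    choose V hV hV2 using hex
    exact ⟨V, fun m n => ⟨hV m n, hV2 m n⟩⟩
  · intro C k l
    obtain ⟨M, S, hS, hSm, hM⟩ := Pool.Agent.N759.UC.finite_classes d δ ν (Bad a b C k l)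
      (fun g N hN hg hnu hbad => bad_seq hd a b ha hb ha1 hb1 hab' hδ hν C k l g N hN hg hnu hbad)
    refine ⟨M + k + l, S, hS, fun g hg => ⟨⟨(hSm g hg).1, (hSm g hg).2.1⟩, (hSm g hg).2.2⟩,
      fun g hg => ?_⟩
    by_cases hbad : Bad a b C k l g M
    · exact Or.inl (hM g hg.1 hg.2 hbad)
    right
    intro V hV m₀ n₀
    obtain ⟨m, n, hm, hm', hn, hn', hinj⟩ : ∃ m n : ℤ, m₀ ≤ m ∧ m ≤ m₀ + M ∧ n₀ ≤ n ∧
        n ≤ n₀ + M ∧ Different V k l m n := by
      by_contra hcon
      push Not at hcon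
      exact hbad ⟨V, hV, m₀, n₀, fun m n h1 h2 h3 h4 => hcon m n h1 h2 h3 h4⟩
    refine ⟨⟨m, n, hm, by push_cast; omega, hn, by push_cast; omega, hinj⟩, ?_⟩
    set q0 := (k + 12) / 13 with hq0
    set q1 := (l + 12) / 13 with hq1
    set f : Fin q0 × Fin q1 →
        (Fin k → Fin l → Matrix (Fin d) (Fin d) ℤ × Matrix (Fin d) (Fin d) ℤ) :=
      fun x => block V k l (m + (x.1 : ℕ)) (n + (x.2 : ℕ)) with hf
    have hfi : Function.Injective f := by
      intro x y hxy
      obtain ⟨h1, h2⟩ := hinj _ _ _ _ x.1.2 x.2.2 y.1.2 y.2.2 hxy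
      exact Prod.ext (Fin.ext h1) (Fin.ext h2)
    have hsub : Set.range f ⊆ {B | ∃ m n : ℤ, m₀ ≤ m ∧ m ≤ m₀ + ((M + k + l : ℕ) : ℤ) ∧ n₀ ≤ n ∧
        n ≤ n₀ + ((M + k + l : ℕ) : ℤ) ∧ B = block V k l m n} := by
      rintro _ ⟨x, rfl⟩
      have h1 := x.1.2
      have h2 := x.2.2
      exact ⟨_, _, by omega, by push_cast; omega, by omega, by push_cast; omega, rfl⟩
    have h1 := Set.encard_le_encard hsub
    rw [← Set.image_univ, hfi.encard_image, Set.encard_univ, ENat.card_eq_coe_fintype_card,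
      Fintype.card_prod, Fintype.card_fin, Fintype.card_fin] at h1
    have h2 : k * l ≤ 169 * (q0 * q1) := by
      have h3 : k ≤ 13 * q0 := by omega
      have h4 : l ≤ 13 * q1 := by omega
      calc k * l ≤ (13 * q0) * (13 * q1) := Nat.mul_le_mul h3 h4
        _ = 169 * (q0 * q1) := by ring
    calc ((k * l : ℕ) : ℕ∞) ≤ ((169 * (q0 * q1) : ℕ) : ℕ∞) := by exact_mod_cast h2
      _ = 169 * ((q0 * q1 : ℕ) : ℕ∞) := by push_cast; rfl
      _ ≤ _ := by gcongr

end Pool.Agent.Results.MP_edeaa2_an.QuadraticComplexity
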