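import Mathlib
import Pool.Agent.N759.FV.Dense2

/-! # MP_edeaa2_an: few small points have values commensurable with `t`, or lie on a hypersurface

Let `d ≥ 2`, `n ≥ 0` and `δ, ν, Λ > 0`. There is `C > 0` such that for every product `F` of `d` real
linear forms `l_i` in `d` variables with absolute determinant `δ` and `|F| ≥ ν` at the nonzero integer
points, for every real form `P` of degree `n`, for every additive subgroup `W` of the real numbers and
for every `x ≥ 1`, one of the following holds.

* `N P` has all its coefficients in `W` for some positive integer `N ≤ exp (C x)`.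
* For every positive `a` of product one, the parallelepiped `|a_i l_i(p)| ≤ exp x` contains at most
  `C x ^ (d - 2)` nonzero integer points `p` with `|F(p)| ≤ Λ` and `P(p) ∈ W`.

(For large `Λ` it contains at least `c x ^ (d - 1)` nonzero integer points `p` with `|F(p)| ≤ Λ`.)

The main case is `P = F`, `n = d`. Let `W` be the group of the integral multiples of a real `t ≠ 0`.
Then either `F` is proportional to an integral form, and more precisely `(N / t) F` is an integral
form with a positive integer `N ≤ exp (C x)`, or `F` takes its values in `ℤ t` of absolute value at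
most `Λ` at no more than `C x ^ (d - 2)` points of each of the parallelepipeds. Let `W = ℚ t`. Then
either `F` is proportional to an integral form, or all the values in `ℚ t` of absolute value at most
`Λ` together are taken at no more than `C x ^ (d - 2)` points. So if `F` violates the conjecture of
Cassels and Swinnerton-Dyer, then for every `t` the values of `F` in `ℚ t` of absolute value at most
`Λ` are taken only `O((log N) ^ (d - 2))` times at the integer points in a box of side `N` (`O(log N)`
for `d = 3`), and the small values in the box fall into at least `c log N` classes modulo `ℚ^*`;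
more generally, for every `ℚ`-subspace `W` of the real numbers which does not contain all the
coefficients of `F`, the small values in `W` are taken only `O((log N) ^ (d - 2))` times. For integral
forms with `|F| ≥ ν` all the values lie in one class, and some single values are taken at least
`c (log N) ^ (d - 1)` times in all boxes of side `N ≥ N₀`, by Dirichlet's unit theorem.

For `W = 0` we get that a hypersurface `P = 0` of degree `n`, where `P ≠ 0`, contains at most
`C x ^ (d - 2)` of the points `p` with `|F(p)| ≤ Λ` in each of the parallelepipeds, with a constant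
which does not depend on `P`, for all forms `F` with `|F| ≥ ν`.

The proof. If the vectors of the monomials of degree `n` at the points `p` in question span
everything, then the first statement follows with a determinant of size `exp (C x)`. If not, some form
of degree `n` in the `l_i` vanishes at all these points. At each of them two of its terms have nearly
the same absolute value, which puts the vector of the `log |l_i(p)|` within bounded distance of one of
boundedly many hyperplanes of the space of dimension `d - 1` in which these vectors lie, up to a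
bounded error; and a ball of radius one contains boundedly many of them. -/

set_option autoImplicit false

namespace Pool.Agent.Results.MP_edeaa2_an.SolutionCounts

/-- the product of the linear forms given by the rows of `g`, at an integer point -/
noncomputable def F {d : ℕ} (g : Matrix (Fin d) (Fin d) ℝ) (p : Fin d → ℤ) : ℝ :=
  ∏ i : Fin d, ∑ j : Fin d, g i j * (p j : ℝ)

/-- the matrices with absolute determinant `δ` and form at least `ν` in absolute value at the nonzero
integer points -/
def System (d : ℕ) (δ ν : ℝ) : Set (Matrix (Fin d) (Fin d) ℝ) :=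
  {g | |g.det| = δ ∧ ∀ p : Fin d → ℤ, p ≠ 0 → ν ≤ |F g p|}

/-- a finite set of nonzero integer points `p` with `|F(p)| ≤ Λ` and `|a_i l_i(p)| ≤ exp x` for
all `i` -/
def SmallPoints {d : ℕ} (g : Matrix (Fin d) (Fin d) ℝ) (Λ : ℝ) (a : Fin d → ℝ) (x : ℝ)
    (S : Finset (Fin d → ℤ)) : Prop :=
  ∀ p ∈ S, p ≠ 0 ∧ |F g p| ≤ Λ ∧ ∀ i, |a i * ∑ j, g i j * (p j : ℝ)| ≤ Real.exp x

theorem result (d n : ℕ) (hd : 2 ≤ d) (δ ν Λ : ℝ) (hδ : 0 < δ) (hν : 0 < ν) :
    ∃ C : ℝ, 0 < C ∧ ∀ g ∈ System d δ ν,
      ∀ P : MvPolynomial (Fin d) ℝ, P.IsHomogeneous n → ∀ W : AddSubgroup ℝ, ∀ x : ℝ, 1 ≤ x →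
      (∃ N : ℕ, 0 < N ∧ (N : ℝ) ≤ Real.exp (C * x) ∧
        ∀ m : Fin d →₀ ℕ, (N : ℝ) * MvPolynomial.coeff m P ∈ W) ∨
      ∀ a : Fin d → ℝ, (∀ i, 0 < a i) → ∏ i, a i = 1 →
        ∀ S : Finset (Fin d → ℤ), SmallPoints g Λ a x S →
          (∀ p ∈ S, MvPolynomial.eval (fun i => (p i : ℝ)) P ∈ W) →
          (S.card : ℝ) ≤ C * x ^ (d - 2) := by
  obtain ⟨r, rfl⟩ : ∃ r, d = r + 1 := ⟨d - 1, by omega⟩
  obtain ⟨C, hC, H⟩ :=
    Pool.Agent.N759.FV.small_points_coeffs (Λ := Λ) (by omega : 0 < r) n hδ hν
  refine ⟨C, hC, fun g hg P hP W x hx => ?_⟩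
  by_cases hN : ∃ N : ℕ, 0 < N ∧ (N : ℝ) ≤ Real.exp (C * x) ∧
      ∀ m : Fin (r + 1) →₀ ℕ, (N : ℝ) * MvPolynomial.coeff m P ∈ W
  · exact Or.inl hN
  refine Or.inr fun a ha0 ha1 S hS hW => ?_
  have hr1 : r + 1 - 2 = r - 1 := by omega
  rw [hr1]
  by_contra hcard
  obtain ⟨T, hT, -, N, hN0, hN1, h⟩ := H g hg.1 hg.2 x hx a ha0 ha1 S hS (not_le.1 hcard)
  refine hN ⟨N, hN0, hN1, fun m => ?_⟩
  refine (AddSubgroup.closure_le W).2 ?_ (h P hP m)
  rintro _ ⟨p, hp, rfl⟩
  exact hW p (hT (Finset.mem_coe.1 hp))

end Pool.Agent.Results.MP_edeaa2_an.SolutionCounts
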