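import Mathlib
import Pool.Agent.N759.CFr.SymFinal
import Pool.Agent.N759.CFr.Palin

/-! # MP_edeaa2_an: symmetric powers of binary lattices, repetitions and palindromes

Let `k ≥ 2`, let `g` be a real invertible `2 × 2` matrix with first row proportional to `(α, 1)`,
`α` irrational (the second row is arbitrary), and let `Sym^k g` be the matrix of the map
`P ↦ P((X,Y) g)` on binary forms of degree `k`.  The product of the `k+1` linear forms given by the
rows of `Sym^k g` is the product of all the coefficients of `P((X,Y) g)`, for `P` an integral binary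
form of degree `k`.  Let `a_0, a_1, a_2, …` be the partial quotients of `α` and suppose that there
are repetitions: blocks `w = a_s … a_{s+p-1}` which are continued with period `p` by a block `u`
(`a_{s+p+j} = a_{s+j}` for `j < ℓ`, so that `u` has the same entries as `a_s … a_{s+ℓ-1}`) such that
the continuants satisfy `K(u)/K(w) → ∞` or, when `k = 2m` is even, `K(u)^{m+1}/K(w)^m → ∞`; or
that `k` is even and there are arbitrarily long palindromes anywhere in the expansion.  Then
the product of the linear forms given by the rows of `Sym^k g`, and more generally of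
`Sym^k g ⊗ G` for any real `n × n` matrix `G`, takes arbitrarily small values at nonzero integer
points. -/

open Matrix Kronecker Pool.Agent.N759.CFr

namespace Pool.Agent.Results.MP_edeaa2_an.SymmetricPowers

theorem result (α : ℝ) (hα : Irrational α) (k : ℕ) (hk : 2 ≤ k)
    (hrep : (∀ C : ℝ, ∃ s p ℓ : ℕ, 1 ≤ s ∧ 1 ≤ p ∧
        (∀ j < ℓ, pq α (s + p + j) = pq α (s + j)) ∧
        C * (kont (pq α) s p : ℝ) < (kont (pq α) s ℓ : ℝ)) ∨
      (Even k ∧ ∀ C : ℝ, ∃ s p ℓ : ℕ, 1 ≤ s ∧ 1 ≤ p ∧
        (∀ j < ℓ, pq α (s + p + j) = pq α (s + j)) ∧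
        C * (kont (pq α) s p : ℝ) ^ (k / 2) < (kont (pq α) s ℓ : ℝ) ^ (k / 2 + 1)) ∨
      (Even k ∧ ∀ N : ℕ, ∃ s L : ℕ, N ≤ L ∧ ∀ j < L, pq α (s + j) = pq α (s + (L - 1 - j))))
    (g : Matrix (Fin 2) (Fin 2) ℝ) (hdet : g.det ≠ 0) (hg : g 0 0 = α * g 0 1)
    (n : ℕ) (hn : 0 < n) (G : Matrix (Fin n) (Fin n) ℝ) (ε : ℝ) (hε : 0 < ε) :
    ∃ x : Fin (k + 1) × Fin n → ℤ, x ≠ 0 ∧
      |∏ i, ((symM k g ⊗ₖ G) *ᵥ fun j => (x j : ℝ)) i| < ε := by
  rcases hrep with h | h | ⟨⟨m, hm⟩, h⟩
  · exact sym_small hα k hk (Or.inl h) g hdet hg n hn G ε hε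
  · exact sym_small hα k hk (Or.inr h) g hdet hg n hn G ε hε
  · have hm' : k = 2 * m := by omega
    subst hm'
    exact pal_small hα h m (by omega) g hdet hg n hn G ε hε

end Pool.Agent.Results.MP_edeaa2_an.SymmetricPowers
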